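import Pool.Agent.V7H58.JE.Main
import Pool.Agent.Results.MP_e0d88d_al.JordanTwoGenerated

/-!
# Finitely generated special Jordan PI algebras embed into 2-generated ones

Over every field of characteristic not two, every finitely generated special Jordan PI algebra
embeds into a 2-generated special Jordan PI algebra.

The embedding of the starting result `JordanTwoGenerated` needs an associative PI envelope. Here it
is shown that the associative algebra `A` generated by the generators `a 0, ..., a (k-1)` of a
special Jordan algebra `J` with an identity is PI: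

* `A` is spanned by the products `j w` with `j ∈ J` and `w` a product of at most `k` generators:
  modulo shorter products the letters of `w` anticommute, because
  `2 j b = [j, b]₊ + 2 [x, j]₊ y + 2 [y, j]₊ x - [x, [y, j]₊]₊ - [y, [x, j]₊]₊` for
  `b = x y + y x` and `[u, v]₊ = u v + v u`.
* a word in `m` different `big` elements of `J` and the generators is reduced with the identity of
  `J`, applied to Jordan polynomials whose leading words are blocks led by a big letter that is
  greater than the other letters of the block; the order of the big letters in an irreducible word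
  is a permutation whose decreasing tree has few right edges on each path, and for every `R` there
  are less than `m! / R ^ m` of these for large `m`. Hence the products of `m` elements of `A` in
  the `m!` orders are linearly dependent with universal coefficients.
-/

set_option autoImplicit false

namespace Pool.Agent.Results.MP_e0d88d_al.SpecialJordanFullH58

open Pool.Agent.H67.PI Pool.Agent.V7H58.JE

universe u v

/-- An associative algebra `A` over a field `F` (not assumed unital) is PI: some nonzero
noncommutative polynomial `f` with zero constant term vanishes on `A`. (It is evaluated in the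
algebra `F ⊕ A` obtained by adjoining a unit.) -/
def IsPI (F : Type u) [Field F] (A : Type v) [NonUnitalRing A] [Module F A]
    [IsScalarTower F A A] [SMulCommClass F A A] : Prop :=
  ∃ (n : ℕ) (f : FreeAlgebra F (Fin n)), f ≠ 0 ∧ FreeAlgebra.algebraMapInv f = 0 ∧
    ∀ a : Fin n → A,
      FreeAlgebra.lift F (fun i => (Unitization.inr (a i) : Unitization F A)) f = 0

/-- The Jordan product `a ∘ b = (ab + ba)/2`. -/
noncomputable def circ (F : Type u) [Field F] {A : Type v} [NonUnitalRing A] [Module F A]
    (a b : A) : A := (2 : F)⁻¹ • (a * b + b * a)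

/-- The Jordan subalgebra of `A⁺` generated by a subset `X`: the least subspace which contains
`X` and is closed under the Jordan product. -/
def jordanAdjoin (F : Type u) [Field F] {A : Type v} [NonUnitalRing A] [Module F A]
    (X : Set A) : Submodule F A :=
  sInf {S : Submodule F A | X ⊆ S ∧ ∀ a ∈ S, ∀ b ∈ S, circ F a b ∈ S}

/-- The free special Jordan algebra on `n` generators. -/
def SJ (F : Type u) [Field F] (n : ℕ) : Submodule F (FreeAlgebra F (Fin n)) :=
  jordanAdjoin F (Set.range (FreeAlgebra.ι F))

/-- A Jordan subalgebra `J` of `A⁺`, `A` associative, is PI: some nonzero element of a free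
special Jordan algebra vanishes on `J`. -/
def IsJordanPI (F : Type u) [Field F] {A : Type v} [NonUnitalRing A] [Module F A]
    [IsScalarTower F A A] [SMulCommClass F A A] (J : Submodule F A) : Prop :=
  ∃ (n : ℕ) (f : FreeAlgebra F (Fin n)), f ∈ SJ F n ∧ f ≠ 0 ∧
    ∀ a : Fin n → A, (∀ i, a i ∈ J) →
      FreeAlgebra.lift F (fun i => (Unitization.inr (a i) : Unitization F A)) f = 0

section lemmas

variable {F : Type u} [Field F] {A : Type v} [NonUnitalRing A] [Module F A]

theorem subset_jordanAdjoin (X : Set A) : X ⊆ jordanAdjoin F X := by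
  intro x hx
  rw [jordanAdjoin, SetLike.mem_coe, Submodule.mem_sInf]
  intro S hS
  exact hS.1 hx

theorem jordanAdjoin_le {X : Set A} {S : Submodule F A} (h1 : X ⊆ S)
    (h2 : ∀ a ∈ S, ∀ b ∈ S, circ F a b ∈ S) : jordanAdjoin F X ≤ S :=
  sInf_le ⟨h1, h2⟩

theorem circ_mem (X : Set A) : ∀ a ∈ jordanAdjoin F X, ∀ b ∈ jordanAdjoin F X,
    circ F a b ∈ jordanAdjoin F X := by
  intro a ha b hb
  rw [jordanAdjoin, Submodule.mem_sInf] at *
  intro S hS
  exact hS.2 a (ha S hS) b (hb S hS)

theorem anti_mem (h2 : (2 : F) ≠ 0) (X : Set A) : ∀ a ∈ jordanAdjoin F X,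
    ∀ b ∈ jordanAdjoin F X, a * b + b * a ∈ jordanAdjoin F X := by
  intro a ha b hb
  have h := Submodule.smul_mem _ (2 : F) (circ_mem X a ha b hb)
  rwa [circ, smul_smul, mul_inv_cancel₀ h2, one_smul] at h

variable [IsScalarTower F A A] [SMulCommClass F A A]

theorem word_of_mem {k : ℕ} (a : Fin k → A) (b : A)
    (hb : b ∈ Subsemigroup.closure (Set.range a)) : ∃ (i : Fin k) (w : List (Fin k)),
      (Unitization.inr b : Unitization F A) =
        ((i :: w).map fun i => (Unitization.inr (a i) : Unitization F A)).prod := by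
  induction hb using Subsemigroup.closure_induction with
  | mem x hx =>
    obtain ⟨i, rfl⟩ := hx
    exact ⟨i, [], by simp⟩
  | mul x y _ _ hx hy =>
    obtain ⟨i, w, hw⟩ := hx
    obtain ⟨i', w', hw'⟩ := hy
    refine ⟨i, w ++ i' :: w', ?_⟩
    rw [Unitization.inr_mul, hw, hw', ← List.cons_append, List.map_append, List.prod_append]

/-- The associative algebra generated by a finitely generated special Jordan PI algebra is PI. -/
theorem envelope (h2 : (2 : F) ≠ 0) {k : ℕ} (a : Fin k → A)
    (hJ : IsJordanPI F (jordanAdjoin F (Set.range a))) :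
    IsPI F (NonUnitalAlgebra.adjoin F (Set.range a)) := by
  classical
  obtain ⟨n, f, -, hf, hv⟩ := hJ
  set J := jordanAdjoin F (Set.range a) with hJdef
  set S : Submodule F (Unitization F A) := J.map (Unitization.inrHom F F A) with hS
  have hmem : ∀ x, x ∈ S ↔ ∃ b ∈ J, (Unitization.inr b : Unitization F A) = x := by
    intro x
    rw [hS, Submodule.mem_map]
    rfl
  have hSJ : ∀ x ∈ S, ∀ y ∈ S, x * y + y * x ∈ S := by
    intro x hx y hy
    obtain ⟨b, hb, rfl⟩ := (hmem x).1 hx
    obtain ⟨b', hb', rfl⟩ := (hmem y).1 hy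
    rw [hmem]
    refine ⟨b * b' + b' * b, anti_mem h2 _ b hb b' hb', ?_⟩
    rw [Unitization.inr_add, Unitization.inr_mul, Unitization.inr_mul]
  obtain ⟨d, c, hc1, hc⟩ := linearise S f hf (by
    intro x hx
    choose b hb hb' using fun i => (hmem (x i)).1 (hx i)
    have : x = fun i => (Unitization.inr (b i) : Unitization F A) := by
      funext i; rw [hb']
    rw [this]
    exact hv b hb)
  have haS : ∀ i, (Unitization.inr (a i) : Unitization F A) ∈ S := fun i =>
    (hmem _).2 ⟨a i, subset_jordanAdjoin _ ⟨i, rfl⟩, rfl⟩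
  obtain ⟨m, α, hm, hα, hid⟩ := envelope_identity h2 hSJ
    (fun i => (Unitization.inr (a i) : Unitization F A)) haS c hc1 hc
  have hall : ∀ b ∈ NonUnitalAlgebra.adjoin F (Set.range a), (Unitization.inr b : Unitization F A) ∈
      M S (fun i => (Unitization.inr (a i) : Unitization F A)) (k + 1) := by
    intro b hb
    have hb' : b ∈ (NonUnitalAlgebra.adjoin F (Set.range a)).toSubmodule := hb
    rw [NonUnitalAlgebra.adjoin_eq_span] at hb'
    induction hb' using Submodule.span_induction with
    | mem x hx =>
      obtain ⟨i, w, hw⟩ := word_of_mem (F := F) a x hx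
      rw [hw]
      exact word_mem h2 hSJ haS i w
    | zero => rw [Unitization.inr_zero]; exact Submodule.zero_mem _
    | add x y hx hy h3 h4 =>
      rw [Unitization.inr_add]
      have hx' : x ∈ (NonUnitalAlgebra.adjoin F (Set.range a)).toSubmodule := by
        rw [NonUnitalAlgebra.adjoin_eq_span]; exact hx
      have hy' : y ∈ (NonUnitalAlgebra.adjoin F (Set.range a)).toSubmodule := by
        rw [NonUnitalAlgebra.adjoin_eq_span]; exact hy
      exact Submodule.add_mem _ (h3 hx') (h4 hy')
    | smul t x hx h3 =>
      rw [Unitization.inr_smul]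
      have hx' : x ∈ (NonUnitalAlgebra.adjoin F (Set.range a)).toSubmodule := by
        rw [NonUnitalAlgebra.adjoin_eq_span]; exact hx
      exact Submodule.smul_mem _ t (h3 hx')
  refine ⟨m, mlp α, mlp_ne_zero α hα, mlp_const hm α, fun b => ?_⟩
  let ψ : NonUnitalAlgebra.adjoin F (Set.range a) →ₙₐ[F] Unitization F A :=
    (Unitization.inrNonUnitalAlgHom F A).comp
      (NonUnitalSubalgebraClass.subtype (NonUnitalAlgebra.adjoin F (Set.range a)))
  apply ev_eq_zero (mlp α) (mlp_const hm α) ψ
  · intro x y hxy
    exact Subtype.ext (Unitization.inr_injective hxy)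
  · rw [mlp_lift]
    exact hid (fun i => ψ (b i)) fun i => hall _ (b i).2

end lemmas

/-- For every field `F` of characteristic not two, every associative algebra `B` over `F` and
every finite subset `s` of `B`: if the Jordan subalgebra `J` of `B⁺` generated by `s` is PI, then
there is an injective homomorphism of `J` into a special Jordan PI algebra, the Jordan subalgebra
of `M⁺` generated by two elements `x`, `y` of an associative algebra `M`. -/
theorem result (F : Type u) [Field F] (h2 : (2 : F) ≠ 0) (B : Type v) [NonUnitalRing B]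
    [Module F B] [IsScalarTower F B B] [SMulCommClass F B B] (s : Set B) (hs : s.Finite)
    (hJ : IsJordanPI F (jordanAdjoin F s)) :
    ∃ (M : Type (max u v)) (_ : NonUnitalRing M) (_ : Module F M) (_ : IsScalarTower F M M)
      (_ : SMulCommClass F M M) (x y : M) (φ : jordanAdjoin F s →ₗ[F] jordanAdjoin F {x, y}),
      Function.Injective φ ∧
      (∀ b b' c : jordanAdjoin F s, (c : B) = circ F (b : B) (b' : B) →
        (φ c : M) = circ F (φ b : M) (φ b' : M)) ∧
      IsJordanPI F (jordanAdjoin F {x, y}) := by
  classical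
  obtain ⟨k, a, rfl⟩ : ∃ (k : ℕ) (a : Fin k → B), Set.range a = s := by
    have := hs.to_subtype
    obtain ⟨k, ⟨e⟩⟩ := Finite.exists_equiv_fin s
    refine ⟨k, fun i => (e.symm i : B), ?_⟩
    ext x
    constructor
    · rintro ⟨i, rfl⟩
      exact (e.symm i).2
    · intro hx
      exact ⟨e ⟨x, hx⟩, by simp⟩
  have henv := envelope h2 a hJ
  set A := NonUnitalAlgebra.adjoin F (Set.range a) with hA
  let a' : Fin k → A := fun i => ⟨a i, NonUnitalAlgebra.subset_adjoin F ⟨i, rfl⟩⟩
  obtain ⟨M, i1, i2, i3, i4, x, y, φ, hM, hφ, hφJ, hP⟩ :=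
    Pool.Agent.Results.MP_e0d88d_al.JordanTwoGenerated.result F h2 A henv k a'
  have hle : jordanAdjoin F (Set.range a) ≤ (jordanAdjoin F (Set.range a')).map
      (NonUnitalSubalgebraClass.subtype A : A →ₗ[F] B) := by
    apply jordanAdjoin_le
    · rintro _ ⟨j, rfl⟩
      exact ⟨a' j, subset_jordanAdjoin _ ⟨j, rfl⟩, rfl⟩
    · rintro _ ⟨b, hb, rfl⟩ _ ⟨b', hb', rfl⟩
      exact ⟨circ F b b', circ_mem _ b hb b' hb', rfl⟩
  have hJA : ∀ b : jordanAdjoin F (Set.range a), (b : B) ∈ A := by
    intro b
    obtain ⟨z, -, hz⟩ := hle b.2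
    rw [← hz]
    exact z.2
  have hmem : ∀ b : jordanAdjoin F (Set.range a),
      (⟨b, hJA b⟩ : A) ∈ jordanAdjoin F (Set.range a') := by
    intro b
    obtain ⟨z, hz1, hz⟩ := hle b.2
    have : (⟨b, hJA b⟩ : A) = z := Subtype.ext hz.symm
    rw [this]
    exact hz1
  let Φ : jordanAdjoin F (Set.range a) →ₗ[F] jordanAdjoin F ({x, y} : Set M) :=
    { toFun := fun b => ⟨φ ⟨b, hJA b⟩, hφJ _ (hmem b)⟩
      map_add' := by
        intro b b'
        apply Subtype.ext
        exact map_add φ (⟨b, hJA b⟩ : A) ⟨b', hJA b'⟩
      map_smul' := by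
        intro t b
        apply Subtype.ext
        exact map_smul φ t (⟨b, hJA b⟩ : A) }
  refine ⟨M, i1, i2, i3, i4, x, y, Φ, ?_, ?_, hP⟩
  · intro b b' hbb
    have h3 : φ ⟨b, hJA b⟩ = φ ⟨b', hJA b'⟩ := congrArg Subtype.val hbb
    have h4 := hφ h3
    exact Subtype.ext (congrArg (fun z : A => (z : B)) h4)
  · intro b b' c hc
    have h3 : (⟨c, hJA c⟩ : A) = circ F (⟨b, hJA b⟩ : A) ⟨b', hJA b'⟩ := Subtype.ext hc
    change φ ⟨c, hJA c⟩ = circ F (φ ⟨b, hJA b⟩) (φ ⟨b', hJA b'⟩)
    rw [h3]
    simp only [circ, map_smul, map_add, map_mul]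

end Pool.Agent.Results.MP_e0d88d_al.SpecialJordanFullH58
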